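import Mathlib
import Pool.Agent.T2h50.BT.Low

/-!
Over `RCA₀`, two bounded versions of Hindman's theorem whose solutions only have to omit colours
imply arithmetical comprehension.

`L2Structure` (structures for the language of second-order arithmetic, Henkin semantics),
`IsModelRCA0` and `ArithComp` are in `Pool.Agent.Helper617.RM.Defs` and
`Pool.Agent.Helper617.RM.HLDefs`.
-/

namespace Pool.Agent.Results.MP_69fea5_lc.BoundedThinHindman

open Pool.Agent.Helper617.RM

universe u

/-- The sum, computed in the structure, of a (standard) finite list of numbers. -/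
def sumL (N : L2Structure.{u}) : List N.M → N.M
  | [] => N.zero
  | a :: l => N.add a (sumL N l)

/-- `FS^{≤ n}(X)`: the set of sums of at least one and at most `n` distinct elements of `X`. -/
def FSle (N : L2Structure.{u}) (n : ℕ) (X : Set N.M) : Set N.M :=
  {s | ∃ l : List N.M, l ≠ [] ∧ l.length ≤ n ∧ l.Nodup ∧ (∀ x ∈ l, x ∈ X) ∧ s = sumL N l}

/-- The principle `HT_{k → m}^{≤ n}` in the structure `N`: for every colouring `c` of the numbers
with `k` colours that exists in the structure (every colour class is one of the sets of the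
structure) there is an unbounded set `X` of the structure such that `c` takes at most `m` colours
on `FS^{≤ n}(X)`. For `m = 1` this is the principle `HT_k^{≤ n}`. -/
def HTc (N : L2Structure.{u}) (n k m : ℕ) : Prop :=
  ∀ c : N.M → Fin k, (∀ i, {x | c x = i} ∈ N.Sets) →
    ∃ X ∈ N.Sets, (∀ b, ∃ x ∈ X, N.lt b x) ∧
      ∃ S : Finset (Fin k), S.card ≤ m ∧ ∀ s ∈ FSle N n X, c s ∈ S

/-- Let `N` be a model of `RCA₀` and `m ≥ 1`, and let `s` be the number of binary digits of
`m + 1`. Arithmetical comprehension holds in `N` if `N` satisfies `HT_{m + 1 → m}^{≤ 4 ^ m}` (one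
of `m + 1` colours has to be omitted), and also if `N` satisfies
`HT_{(m + 1) s 2 ^ s → m}^{≤ m + 1}` (the sums of at most `m + 1` terms have at most `m`
colours). -/
theorem result (N : L2Structure.{u}) (hN : IsModelRCA0 N) (m : ℕ) (hm : 1 ≤ m) :
    (HTc N (4 ^ m) (m + 1) m → ArithComp N) ∧
      (HTc N (m + 1) ((m + 1) * (Nat.size (m + 1) * 2 ^ Nat.size (m + 1))) m → ArithComp N) := by
  classical
  have hsum : ∀ l : List N.M, l.sum = sumL N l := by
    intro l
    induction l with
    | nil => rfl
    | cons a l ih =>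
      rw [List.sum_cons, ih]
      rfl
  constructor
  · intro h
    have hrev : Sig1 N := by
      refine Pool.Agent.T2h50.BT.thin_rev (m + 1) (by omega) N fun C hC => ?_
      obtain ⟨X, hX, hinf, S, hS, hXS⟩ := h C (fun i => comp_D0 (P := fun x => C x = i) (hC i))
      refine ⟨X, hX, hinf, ?_⟩
      obtain ⟨c0, hc0⟩ : ∃ c0 : Fin (m + 1), c0 ∉ S := by
        by_contra hcon
        push Not at hcon
        have h1 : (Finset.univ : Finset (Fin (m + 1))) ⊆ S := fun c _ => hcon c
        have h2 := Finset.card_le_card h1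
        rw [Finset.card_univ, Fintype.card_fin] at h2
        omega
      refine ⟨c0, fun l h1 h2 h3 h4 h5 => hc0 ?_⟩
      have h6 := hXS l.sum ⟨l, h1, by simpa using h2, h3, h4, hsum l⟩
      have h7 : C l.sum = c0 := h5
      exact h7 ▸ h6
    exact arithComp_of_sig1
  · intro h
    obtain ⟨s, hs⟩ : ∃ s, s = Nat.size (m + 1) := ⟨_, rfl⟩
    rw [← hs] at h
    have hs1 : m + 1 < 2 ^ s := by
      rw [hs]
      exact Nat.lt_size_self _
    have hs0 : s ≠ 0 := by
      rintro rfl
      simp at hs1
    have : NeZero s := ⟨hs0⟩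
    have : NeZero (2 ^ s) := ⟨by positivity⟩
    have hcard : Fintype.card (ZMod (m + 1) × (ZMod s × ZMod (2 ^ s))) =
        (m + 1) * (s * 2 ^ s) := by
      rw [Fintype.card_prod, Fintype.card_prod, ZMod.card, ZMod.card, ZMod.card]
    let e := Fintype.equivFinOfCardEq hcard
    have hrev : Sig1 N := by
      refine Pool.Agent.T2h50.BT.few_rev (m + 1) s (by omega) hs1 N fun c hc => ?_
      obtain ⟨X, hX, hinf, S, hS, hXS⟩ := h (fun x => e (c x)) (fun i => by
        have h1 : {x | e (c x) = i} = {x | c x = e.symm i} := by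
          ext x
          exact (Equiv.eq_symm_apply e).symm
        rw [h1]
        exact hc _)
      refine ⟨X, hX, hinf, S.image e.symm, ?_, ?_⟩
      · exact lt_of_le_of_lt Finset.card_image_le (by omega)
      · intro l h1 h2 h3 h4
        exact Finset.mem_image.2 ⟨_, hXS l.sum ⟨l, h1, h2, h3, h4, hsum l⟩, by simp⟩
    exact arithComp_of_sig1

end Pool.Agent.Results.MP_69fea5_lc.BoundedThinHindman
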