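import Pool.Agent.T2h24.HC.Elem

/-!
There is a computable sequence of colourings such that every function which gives, for each
member of the sequence, one element of the set of finite sums of some solution computes a choice
function for every `Σ⁰₄` relation, and every `Δ⁰₄` set.
-/

namespace Pool.Agent.Results.MP_69fea5_lc.ElementsOfSolutions

/-- The characteristic function of a set of natural numbers, as a (total) partial function. -/
noncomputable def char (B : Set ℕ) : ℕ →. ℕ := by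
  classical exact fun n => Part.some (if n ∈ B then 1 else 0)

/-- The `Σ⁰₄` relation presented by `R`. -/
def Sigma4 (R : ℕ → ℕ → ℕ → ℕ → ℕ → ℕ → Bool) (x y : ℕ) : Prop :=
  ∃ a, ∀ b, ∃ t, ∀ u, R x y a b t u = true

/-- `f` has values below `k` and chooses, for every `j`, an `i < k` which is in the relation with
`j`, if there is one. -/
def Chooses (k : ℕ) (R : ℕ → ℕ → ℕ → ℕ → ℕ → ℕ → Bool) (f : ℕ → ℕ) : Prop :=
  (∀ j, f j < k) ∧ ∀ j, (∃ i < k, Sigma4 R j i) → Sigma4 R j (f j)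

/-- `A` is a `Δ⁰₄` set. -/
def IsDelta4 (A : Set ℕ) : Prop :=
  ∃ P Q : ℕ → ℕ → ℕ → ℕ → ℕ → Bool,
    Computable (fun x : ℕ × ℕ × ℕ × ℕ × ℕ => P x.1 x.2.1 x.2.2.1 x.2.2.2.1 x.2.2.2.2) ∧
    Computable (fun x : ℕ × ℕ × ℕ × ℕ × ℕ => Q x.1 x.2.1 x.2.2.1 x.2.2.2.1 x.2.2.2.2) ∧
    (∀ n, n ∈ A ↔ ∃ a, ∀ b, ∃ t, ∀ u, P n a b t u = true) ∧
    (∀ n, n ∉ A ↔ ∃ a, ∀ b, ∃ t, ∀ u, Q n a b t u = true)

/-- The infinite set `X` of positive integers is a solution of Hindman's theorem for the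
colouring `c`, and all its finite sums have the colour `i`. -/
def Hindman (c : ℕ → ℕ) (X : Set ℕ) (i : ℕ) : Prop :=
  X.Infinite ∧ 0 ∉ X ∧ ∀ F : Finset ℕ, (F : Set ℕ) ⊆ X → F.Nonempty → c (∑ n ∈ F, n) = i

/-- The set `X` of positive integers contains multiples of all powers of `3`, and all sums of
exactly three elements of `X` have the colour `i`. -/
def ThreeSums (c : ℕ → ℕ) (X : Set ℕ) (i : ℕ) : Prop :=
  (∀ N, ∃ x ∈ X, 3 ^ N ∣ x) ∧ 0 ∉ X ∧
    ∀ F : Finset ℕ, (F : Set ℕ) ⊆ X → F.card = 3 → c (∑ n ∈ F, n) = i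

/-- `m` is the sum of a nonempty finite subset of some solution of Hindman's theorem for `c`, or
the sum of three elements of some solution for sums of exactly three elements. -/
def Element (c : ℕ → ℕ) (m : ℕ) : Prop :=
  (∃ X i, Hindman c X i ∧ ∃ F : Finset ℕ, (F : Set ℕ) ⊆ X ∧ F.Nonempty ∧ ∑ n ∈ F, n = m) ∨
    ∃ X i, ThreeSums c X i ∧ ∃ F : Finset ℕ, (F : Set ℕ) ⊆ X ∧ F.card = 3 ∧ ∑ n ∈ F, n = m

theorem result (k : ℕ) (hk : 2 ≤ k) :
    ∃ C : ℕ → ℕ → ℕ, Computable (fun x : ℕ × ℕ => C x.1 x.2) ∧ (∀ j n, C j n < k) ∧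
      ∀ a : ℕ → ℕ, (∀ j, Element (C j) (a j)) →
        (∀ R : ℕ → ℕ → ℕ → ℕ → ℕ → ℕ → Bool,
          Computable (fun x : ℕ × ℕ × ℕ × ℕ × ℕ × ℕ =>
            R x.1 x.2.1 x.2.2.1 x.2.2.2.1 x.2.2.2.2.1 x.2.2.2.2.2) →
          ∃ f : ℕ → ℕ, TuringReducible (fun n => Part.some (f n)) (fun n => Part.some (a n)) ∧
            Chooses k R f) ∧
        ∀ A : Set ℕ, IsDelta4 A → TuringReducible (char A) (fun n => Part.some (a n)) := by
  refine ⟨Pool.Agent.T2h24.HC.CU k, Pool.Agent.T2h24.HC.c_CU k,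
    fun _ _ => Pool.Agent.T2h24.HC.CU_lt (by omega), fun a ha => ?_⟩
  have h : ∀ R : ℕ → ℕ → ℕ → ℕ → ℕ → ℕ → Bool,
      Computable (fun x : ℕ × ℕ × ℕ × ℕ × ℕ × ℕ =>
        R x.1 x.2.1 x.2.2.1 x.2.2.2.1 x.2.2.2.2.1 x.2.2.2.2.2) →
      ∃ f : ℕ → ℕ, TuringReducible (fun n => Part.some (f n)) (fun n => Part.some (a n)) ∧
        Chooses k R f := fun R hR => Pool.Agent.T2h24.HC.elem_choice (by omega) ha hR
  refine ⟨h, ?_⟩
  rintro A ⟨P, Q, hP, hQ, h1, h2⟩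
  obtain ⟨f, hf1, hf2⟩ := h _ (Pool.Agent.T2h24.HC.c_Rdel hP hQ)
  have h3 : char A = fun n => Part.some (f n) := by
    classical
    funext n
    have h4 := Pool.Agent.T2h24.HC.choice_del hk h1 h2 hf2 n
    unfold char
    by_cases hn : n ∈ A
    · rw [if_pos hn, h4.1 hn]
    · rw [if_neg hn, h4.2 hn]
  rw [h3]
  exact hf1

end Pool.Agent.Results.MP_69fea5_lc.ElementsOfSolutions
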