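import Pool.Agent.T2h50.TD.Ex

/-!
The thin version of Hindman's theorem: computable colourings all of whose solutions compute the
double jump, where a solution is an infinite set of positive integers whose finite sums omit one
colour.
-/

namespace Pool.Agent.Results.MP_69fea5_lc.ThinDoubleJump

open Pool.Agent.N640.HU Pool.Agent.T2h50.TD

/-- The characteristic function of a set of natural numbers, as a function which is defined
everywhere. -/
noncomputable def char (B : Set ℕ) : ℕ →. ℕ := by
  classical exact fun n => Part.some (if n ∈ B then 1 else 0)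

/-- `X` is an infinite set of positive integers whose sums of finitely many distinct elements
never get the colour `i`. -/
def ThinSolution (c : ℕ → ℕ) (i : ℕ) (X : Set ℕ) : Prop :=
  X.Infinite ∧ 0 ∉ X ∧ ∀ F : Finset ℕ, (F : Set ℕ) ⊆ X → F.Nonempty → c (∑ n ∈ F, n) ≠ i

/-- `X` is a set of positive integers which contains multiples of all powers of `3`, and whose
sums of at most `m` distinct elements never get the colour `i`. -/
def BoundedThinSolution (m : ℕ) (c : ℕ → ℕ) (i : ℕ) (X : Set ℕ) : Prop :=
  0 ∉ X ∧ (∀ N, ∃ x ∈ X, 3 ^ N ∣ x) ∧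
    ∀ F : Finset ℕ, (F : Set ℕ) ⊆ X → F.Nonempty → F.card ≤ m → c (∑ n ∈ F, n) ≠ i

/-- `X` computes every `Σ⁰₂` set. -/
def ComputesDoubleJump (X : Set ℕ) : Prop :=
  ∀ R : ℕ → ℕ → ℕ → Bool, Computable (fun q : ℕ × ℕ × ℕ => R q.1 q.2.1 q.2.2) →
    TuringReducible (char {n | ∃ a, ∀ b, R n a b = true}) (char X)

theorem computes_of_good {X Y : Set ℕ} (hY : UE (fun X' => X' = X) fun _ (n : ℕ) => n ∈ Y)
    (hG : Good' Y) : ComputesDoubleJump X := by
  intro R hR
  have h1 := uniform (𝓕 := fun X' => X' = X) (Yf := fun _ => Y) hY (fun _ _ => hG) hR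
  exact Pool.Agent.Helper446.Oracle.turingReducible_iff.2 ⟨h1.1.reIn rfl, h1.2.reIn rfl⟩

theorem computes_thin {k i : ℕ} (hk : 2 ≤ k) (hi : i < k) {X : Set ℕ}
    (hX : ThinSolution (fun n => nz n % k) i X) : ComputesDoubleJump X := by
  obtain ⟨j, N0, h⟩ := thin_FS hX.1 hX.2.1 hk hi hX.2.2
  refine computes_of_good ?_ h
  refine (ue_part (𝓕 := fun X' => X' = X) ue_FS k j N0).of_eq ?_
  rintro X' rfl n
  rfl

theorem computes_bounded {k i : ℕ} (hk : 2 ≤ k) (hi : i < k) {X : Set ℕ}
    (hX : BoundedThinSolution (k ^ 2 - k + 2) (fun n => nz n % k) i X) :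
    ComputesDoubleJump X := by
  obtain ⟨s, j, N0, h⟩ := thin_Sk hX.1 hX.2.1 hk hi hX.2.2
  refine computes_of_good ?_ h
  refine (ue_part (𝓕 := fun X' => X' = X) (ue_Sk s) k j N0).of_eq ?_
  rintro X' rfl n
  rfl

/-- The thin version of Hindman's theorem codes the double jump.

There is a computable function `d` such that for all `k ≥ 2` every infinite set of positive
integers whose finite sums omit one colour `i < k` of the colouring `d n % k` computes every
`Σ⁰₂` set, and the same holds for every set of positive integers which contains multiples of all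
powers of `3` and whose sums of at most `k ^ 2 - k + 2` distinct elements omit one colour `i < k`.

There is a computable colouring `c` with infinitely many colours such that every infinite set of
positive integers whose finite sums omit at least one colour computes every `Σ⁰₂` set. -/
theorem result :
    (∃ d : ℕ → ℕ, Computable d ∧ ∀ k, 2 ≤ k → ∀ i < k, ∀ X,
      ThinSolution (fun n => d n % k) i X ∨
        BoundedThinSolution (k ^ 2 - k + 2) (fun n => d n % k) i X → ComputesDoubleJump X) ∧
    ∃ c : ℕ → ℕ, Computable c ∧ ∀ X, (∃ i, ThinSolution c i X) → ComputesDoubleJump X := by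
  refine ⟨⟨nz, c_nz, ?_⟩, fun n => vl (nz n), c_vl c_nz, ?_⟩
  · rintro k hk i hi X (hX | hX)
    · exact computes_thin hk hi hX
    · exact computes_bounded hk hi hX
  · rintro X ⟨i, hX⟩
    have h1 : 3 ^ i < 3 ^ (i + 1) := Nat.pow_lt_pow_right (by norm_num) (by omega)
    have h2 : 2 ≤ 3 ^ (i + 1) := by
      have h3 : 0 < 3 ^ i := by positivity
      rw [pow_succ]
      omega
    refine computes_thin (k := 3 ^ (i + 1)) (i := 3 ^ i) h2 h1
      ⟨hX.1, hX.2.1, fun F hF hne hc => ?_⟩
    exact hX.2.2 F hF hne (vl_eq hc)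

end Pool.Agent.Results.MP_69fea5_lc.ThinDoubleJump
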