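import Pool.Agent.T2h50.TJ.Fin

/-!
A computable colouring of the natural numbers with six colours all of whose solutions for
Hindman's theorem compute the third jump `0'''`; sums of at most five elements suffice.
-/

namespace Pool.Agent.Results.MP_69fea5_lc.TripleJump

open Pool.Agent.H645R2.HT Pool.Agent.T2h50.TJ

/-- The characteristic function of a set of natural numbers, as a function which is defined
everywhere. -/
noncomputable def char (B : Set ℕ) : ℕ →. ℕ := by
  classical exact fun n => Part.some (if n ∈ B then 1 else 0)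

/-- All sums of finitely many distinct elements of `X` get the same colour. -/
def AllSums (c : ℕ → ℕ) (X : Set ℕ) : Prop :=
  ∃ i, ∀ F : Finset ℕ, (F : Set ℕ) ⊆ X → F.Nonempty → c (∑ n ∈ F, n) = i

/-- All sums of at most five distinct elements of `X` get the same colour. -/
def FiveSums (c : ℕ → ℕ) (X : Set ℕ) : Prop :=
  ∃ i, ∀ F : Finset ℕ, (F : Set ℕ) ⊆ X → F.Nonempty → F.card ≤ 5 → c (∑ n ∈ F, n) = i

/-- `X` computes every `Σ⁰₃` set. -/
def ComputesTripleJump (X : Set ℕ) : Prop :=
  ∀ R : ℕ → ℕ → ℕ → ℕ → Bool,
    Computable (fun q : ℕ × ℕ × ℕ × ℕ => R q.1 q.2.1 q.2.2.1 q.2.2.2) →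
      TuringReducible (char {n | ∃ a, ∀ b, ∃ t, R n a b t = true}) (char X)

/-- Hindman's theorem codes the third jump.

There are computable colourings `c` with six colours and `b` with two colours such that every
infinite set `X` of positive integers computes every `Σ⁰₃` set if all finite sums of distinct
elements of `X` have the same colour for `c`, or if all sums of at most five distinct elements of
`X` have the same colour for `c` and either the same holds for `b` or `X` contains multiples of
all powers of `3`. -/
theorem result :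
    ∃ c b : ℕ → ℕ, Computable c ∧ Computable b ∧ (∀ n, c n < 6 ∧ b n < 2) ∧
      ∀ X : Set ℕ, X.Infinite → 0 ∉ X →
        (AllSums c X ∨ (FiveSums c X ∧ (FiveSums b X ∨ ∀ N, ∃ x ∈ X, 3 ^ N ∣ x))) →
          ComputesTripleJump X := by
  refine ⟨c6, fun n => bif b0 n then 1 else 0, c_c6, ?_, fun n => ⟨c6_lt n, ?_⟩, ?_⟩
  · have h := c_b0
    fun_prop
  · show (bif b0 n then 1 else 0) < 2
    generalize b0 n = z
    cases z <;> decide
  · have key : ∀ X, TrJ X → ComputesTripleJump X := fun X h R hR =>
      Pool.Agent.Helper446.Oracle.turingReducible_iff.2 ⟨(h R hR).1, (h R hR).2⟩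
    rintro X hX h0 (h | ⟨h, h' | h'⟩)
    · exact key X (trJ_FS hX h0 h)
    · refine key X (trJ_five h0 ?_ h)
      obtain ⟨i, hi⟩ := h'
      have h1 : Const3 b0 X := by
        refine ⟨decide (i = 1), fun F h2 h3 h4 => ?_⟩
        have h5 : (bif b0 (∑ n ∈ F, n) then 1 else 0) = i := hi F h2 h3 (by omega)
        rw [← h5]
        generalize b0 (∑ n ∈ F, n) = z
        cases z <;> rfl
      have h2 := h1.far hX (ps_of h0)
      intro N
      obtain ⟨x, h3, h4⟩ := h2 N
      exact ⟨x, h3, dvd_of_dg fun j hj => dg_of_lt_la (by omega)⟩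
    · exact key X (trJ_five h0 h' h)

end Pool.Agent.Results.MP_69fea5_lc.TripleJump
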